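import Mathlib
import Pool.Agent.H5.Seeds.Asm

set_option autoImplicit false

/-!
# Groups of 32 quadratic characters, all 31 nontrivial ones without real zeros in `(0,1)`

Let `P` be a nonempty set of primes contained in `{3, 5, 7, 11, 17}` and let `q` be their product.
The characters `ψ` modulo `q` with `ψ² = 1` form a group of order `2^|P|`.  For a proportion of at
least `1 - 0.1351 * 2^|P| / (|P| + 1)` of all quadratic characters `χ` of a class with prescribed
local conditions outside `P`, the group generated by `χ` and these `ψ` (of order `2^(|P|+1)`) has a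
subgroup `G` of order `2^|P|`, containing one of the `χψ`, such that `L(s, g) > 0` on `(0,1)` for
ALL `g ≠ 1` in `G`.  In other words the Dedekind zeta function of the multiquadratic field of degree
`2^|P|` that belongs to `G` has no zero in `(0,1)`.  For `|P| = 5` the degree is `32` and the
proportion is more than `27.9` per cent.

Proof: the `31` characters modulo `3 * 5 * 7 * 11 * 17` are treated by certificates of
Fekete-Chowla type, verified by the kernel.  By the theorem on simultaneous twists (a mollified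
moment at the real points) at most `|P|` of the `2^|P|` twists `χψ` are bad, for the stated
proportion of the `χ`.  As points of a vector space of dimension `|P|` over the field with two
elements the bad `ψ` lie in an affine hyperplane; its complement and its direction give `G`.
-/

namespace Pool.Agent.Results.MP_0016c7_nt.MultiquadraticDegree32

open DirichletCharacter

/-- A modulus and a Dirichlet character modulo it. -/
abbrev Pair : Type := Σ N : ℕ, DirichletCharacter ℂ N

/-- The pairs `(N, χ)` with `1 ≤ N ≤ X` and `χ` a nontrivial primitive quadratic Dirichlet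
character modulo `N` such that `χ(-1) = s` and `χ(p) = c p` for all `p ∈ S`. -/
def Class (S : Finset ℕ) (c : ℕ → ℤ) (s : ℤ) (X : ℕ) : Set Pair :=
  {p | p.1 ≠ 0 ∧ p.1 ≤ X ∧ p.2.IsPrimitive ∧ p.2 ^ 2 = 1 ∧ p.2 ≠ 1 ∧ p.2 (-1) = (s : ℂ) ∧
    ∀ q ∈ S, p.2 (q : ZMod p.1) = (c q : ℂ)}

/-- `L(s,χ)` is real and positive for every real `s` with `0 < s < 1`. -/
def Positive (p : Pair) : Prop :=
  ∃ _ : NeZero p.1, ∀ s : ℝ, 0 < s → s < 1 →
    (DirichletCharacter.LFunction p.2 (s : ℂ)).im = 0 ∧
    0 < (DirichletCharacter.LFunction p.2 (s : ℂ)).re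

/-- For the character `χ` modulo `N`: there is a modulus `M`, divisible by `N` and `q`, and a group
`G` of `2 ^ r` characters modulo `M` with `g² = 1`, all of whose nontrivial elements are positive on
`(0,1)`; every element of `G` is induced by some `ψ` or `χ ψ` with a character `ψ` modulo `q`,
`ψ² = 1`, and at least one of the products `χ ψ` belongs to `G`. -/
def HasGroup (q r : ℕ) (p : Pair) : Prop :=
  ∃ (M : ℕ) (_ : M ≠ 0) (hN : p.1 ∣ M) (hq : q ∣ M) (G : Subgroup (DirichletCharacter ℂ M)),
    Nat.card G = 2 ^ r ∧ (∀ g ∈ G, g ^ 2 = 1) ∧ (∀ g ∈ G, g ≠ 1 → Positive ⟨M, g⟩) ∧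
    (∀ g ∈ G, ∃ ψ : DirichletCharacter ℂ q, ψ ^ 2 = 1 ∧
      (g = changeLevel hq ψ ∨ g = changeLevel hN p.2 * changeLevel hq ψ)) ∧
    ∃ ψ : DirichletCharacter ℂ q, ψ ^ 2 = 1 ∧ changeLevel hN p.2 * changeLevel hq ψ ∈ G

/-- **Theorem.** Let `S` be a finite set of primes, `c p ∈ {0, 1, -1}` for `p ∈ S` and
`s ∈ {1, -1}`.  The class of the primitive quadratic characters `χ` with `χ(p) = c p` for `p ∈ S`
and `χ(-1) = s` has at least `κ X` members of conductor at most `X`, with some `κ > 0`.  Let
`P ⊆ {3, 5, 7, 11, 17}` be nonempty and disjoint from `S`.  For all large `X`, a proportion of at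
least `1 - 0.1351 * 2^|P| / (|P| + 1)` of the `χ` of the class of conductor at most `X` has a group
of `2^|P|` characters as above, with `q = ∏ p ∈ P, p`; for `P = {3, 5, 7, 11, 17}` these are groups
of `32` characters, and the proportion is more than `0.279`. -/
theorem result (S : Finset ℕ) (hS : ∀ p ∈ S, p.Prime) (c : ℕ → ℤ)
    (hc : ∀ p ∈ S, c p = 0 ∨ c p = 1 ∨ c p = -1) (s : ℤ) (hs : s = 1 ∨ s = -1) :
    (∃ κ : ℝ, 0 < κ ∧ ∃ X0 : ℕ, ∀ X : ℕ, X0 ≤ X →
      (Class S c s X).Finite ∧ κ * (X : ℝ) ≤ ((Class S c s X).ncard : ℝ)) ∧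
    (∀ P : Finset ℕ, P ⊆ {3, 5, 7, 11, 17} → P.Nonempty → Disjoint P S →
      ∃ X0 : ℕ, ∀ X : ℕ, X0 ≤ X →
        (1 - 1351 / 10000 * 2 ^ P.card / (P.card + 1) : ℝ) * ((Class S c s X).ncard : ℝ) ≤
          ((Class S c s X ∩ {p | HasGroup (∏ p ∈ P, p) P.card p}).ncard : ℝ)) := by
  classical
  have main : ∀ P : Finset ℕ, P ⊆ {3, 5, 7, 11, 17} → P.Nonempty → Disjoint P S →
      ∃ X0 : ℕ, ∀ X : ℕ, X0 ≤ X →
        (1 - 1351 / 10000 * 2 ^ P.card / (P.card + 1) : ℝ) * ((Class S c s X).ncard : ℝ) ≤
          ((Class S c s X ∩ {p | HasGroup (∏ p ∈ P, p) P.card p}).ncard : ℝ) := by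
    intro P hP hPn hPS
    set l0 : List ℕ := H5.Seeds.five.filter (fun p => p ∈ P) with hl0
    have h5 : (H5.Seeds.five).Nodup := by decide
    have hnd : l0.Nodup := h5.filter _
    have hfs : l0.toFinset = P := by
      ext a
      rw [List.mem_toFinset, hl0, List.mem_filter]
      constructor
      · rintro ⟨-, h⟩
        simpa using h
      · intro h
        refine ⟨?_, by simpa using h⟩
        have := hP h
        simpa [H5.Seeds.five] using this
    have hlen : l0.length = P.card := by
      rw [← hfs, List.toFinset_card_of_nodup hnd]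
    have hprod : l0.prod = ∏ p ∈ P, p := by
      rw [← hfs, List.prod_toFinset _ hnd, List.map_id']
    obtain ⟨X0, hX0⟩ := H5.Seeds.main l0 List.filter_sublist
      (by rw [hlen]; exact hPn.card_pos) S hS
      (fun p hp hp2 => by
        rw [← List.mem_toFinset, hfs] at hp2
        exact (Finset.disjoint_left.1 hPS) hp2 hp) c hc s hs
    rw [hlen, hprod] at hX0
    exact ⟨X0, hX0⟩
  refine ⟨?_, main⟩
  obtain ⟨h1, ⟨κ, hκ, X0, h2⟩, -⟩ :=
    Pool.Agent.Results.MP_0016c7_nt.SimultaneousTwists.result S hS c hc s hs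
  exact ⟨κ, hκ, X0, fun X hX => ⟨h1 X, h2 X hX⟩⟩

end Pool.Agent.Results.MP_0016c7_nt.MultiquadraticDegree32
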