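import Mathlib
import Pool.Agent.H23.ER.TwF

/-!
# Prime twists of quadratic L-functions over `F_q[T]` without real zeros

Let `q` be odd, and such that `√q` is not an integer which is `1` modulo `4`. Let `η` be a quadratic character modulo
`N ∈ F_q[T]` (possibly trivial), and `p_1, ..., p_r` the primes of its conductor. For each `m` which is odd, or
arbitrary if some `p_i` has odd degree, there is a residue class `A` modulo `N` such that
`L(s, η χ_P) > 0` for all real `s > 0` and all primes `P = A` modulo `N` with `deg P = m` modulo `4`; here `χ_P` is the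
quadratic character modulo `P`. In fact it is enough that `(P / p_i) = (A / p_i)` for all `i`. So at least `2 ^ (-r)` of
the primes of degree `m` (up to `O(q ^ (-m / 2))`) have this property.

Proof: by Weil's theorem the only possible real zero is `s = 1/2`. The residue of `(1 - √q) L(1/2, χ)`, suitably
normalised, at a place above `2` is the determinant of a matrix over `F_2` or `F_4` made of the symbols `(P_i / P_j)`
(`RedeiThreeModFour`, `RedeiOneModFour`). For the primes `p_1, ..., p_r, P` this determinant is, after the addition of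
the rows to the first one, a multilinear polynomial in the `r` symbols `(P / p_i)`; one computes a nonzero coefficient.
-/

set_option autoImplicit false

namespace Pool.Agent.Results.MP_0016c7_nt.PrimeTwists

open Polynomial

variable {F : Type} [Field F]

open Classical in
/-- the quadratic residue symbol `(f / P)` -/
noncomputable def sym (P f : F[X]) : ℤ := if P ∣ f then 0 else if ∃ g, P ∣ g ^ 2 - f then 1 else -1

/-- `p 0, ..., p (r - 1)` are distinct primes dividing `N` and the quadratic character `η` modulo `N` is induced by the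
product of their quadratic residue symbols; that is, they are the primes dividing the conductor of `η` (`r = 0` for
the trivial character) -/
def Conductor (N : F[X]) (η : MulChar (AdjoinRoot N) ℂ) {r : ℕ} (p : Fin r → F[X]) : Prop :=
  Function.Injective p ∧ (∀ i, (p i).Monic ∧ Irreducible (p i) ∧ p i ∣ N) ∧
    ∀ f : F[X], IsCoprime f N → η (AdjoinRoot.mk N f) = ∏ i, (sym (p i) f : ℂ)

variable [Fintype F]

/-- the L-function `∑ η(f) (f / P) u ^ deg f` (sum over the monic `f`), as a polynomial in `u`, of the twist of the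
character `η` modulo `N` by the quadratic character modulo the prime `P`; the terms with `deg f ≥ deg N + deg P`
cancel (`LPoly_coeff`) -/
noncomputable def LPoly (N P : F[X]) (η : MulChar (AdjoinRoot N) ℂ) : ℂ[X] :=
  ∑ k ∈ Finset.range (N * P).natDegree,
    C (∑ᶠ f ∈ {f : F[X] | f.Monic ∧ f.natDegree = k}, η (AdjoinRoot.mk N f) * (sym P f : ℂ)) * X ^ k

/-- the L-function of the twist as a function of `s`, `u = q ^ (-s)` -/
noncomputable def LFun (N P : F[X]) (η : MulChar (AdjoinRoot N) ℂ) (s : ℂ) : ℂ :=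
  (LPoly N P η).eval ((Fintype.card F : ℂ) ^ (-s))

/-- the L-function of the twist is real and positive for all real `s > 0` -/
def Positive (N : F[X]) (η : MulChar (AdjoinRoot N) ℂ) (P : F[X]) : Prop :=
  ∀ s : ℝ, 0 < s → ∃ x : ℝ, 0 < x ∧ LFun N P η (s : ℂ) = (x : ℂ)

open Pool.Agent.H23.FF Pool.Agent.H23.PC Pool.Agent.H23.EL Pool.Agent.H23.ER
open Pool.Agent.H341R2.Sharp (Mon mem_Mon)

theorem set_Mon (k : ℕ) : {R : F[X] | R.Monic ∧ R.natDegree = k} = (Mon F k : Set F[X]) := by
  ext R
  rw [Set.mem_ofPred_eq, Finset.mem_coe, mem_Mon]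

omit [Fintype F] in
theorem sym_leg (P f : F[X]) : (sym P f : ℂ) = leg P f := by
  unfold sym leg
  split_ifs <;> simp

theorem LPoly_eq (N P : F[X]) (η : MulChar (AdjoinRoot N) ℂ) :
    LPoly N P η = Lp (N * P).natDegree (fun f => fn η f * leg P f) := by
  unfold LPoly Lp cf
  apply Finset.sum_congr rfl
  intro k _
  rw [set_Mon, finsum_mem_coe_finset]
  congr 2
  apply Finset.sum_congr rfl
  intro f _
  rw [sym_leg]
  rfl

/-- the coefficients of the L-function -/
theorem LPoly_coeff (hq : Odd (Fintype.card F)) {N P : F[X]} (hN : N.Monic) (hP : P.Monic) (hP' : Irreducible P)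
    (hPN : ¬ P ∣ N) (η : MulChar (AdjoinRoot N) ℂ) (k : ℕ) :
    (LPoly N P η).coeff k =
      ∑ᶠ f ∈ {f : F[X] | f.Monic ∧ f.natDegree = k}, η (AdjoinRoot.mk N f) * (sym P f : ℂ) := by
  have hG : Good leg P := leg_Good (two_ne_of_odd hq) hP hP'
  rw [LPoly_eq, Lp_coeff (dc_twist (dc_fn hN η) hG) rfl (nt_twist (dc_fn hN η) hG hPN), set_Mon,
    finsum_mem_coe_finset]
  unfold cf
  apply Finset.sum_congr rfl
  intro f _
  rw [sym_leg]
  rfl

omit [Fintype F] in
theorem pow_of {P : F[X]} {ψ : MulChar (AdjoinRoot P) ℂ} {n : ℕ} (hn : ψ ^ n = 1) (f : F[X])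
    (hf : IsCoprime f P) : fn ψ f ^ n = 1 := by
  have h1 : (ψ ^ n) (AdjoinRoot.mk P f) = 1 := by
    rw [hn, ← un_coe hf, MulChar.one_apply_coe]
  rw [← un_coe hf, MulChar.pow_apply_coe] at h1
  unfold fn
  rw [← un_coe hf]
  exact h1

omit [Fintype F] in
theorem fam_iff {N : F[X]} {η : MulChar (AdjoinRoot N) ℂ} {r : ℕ} {p : Fin r → F[X]} :
    Conductor N η p ↔ Fam0 N (fn η) p := by
  constructor
  · rintro ⟨h2, h3, h4⟩
    refine ⟨h2, fun i => ⟨(h3 i).1, (h3 i).2.1⟩, fun i => (h3 i).2.2, fun f hf => ?_⟩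
    unfold fn
    rw [h4 f hf]
    exact Finset.prod_congr rfl (fun i _ => sym_leg _ _)
  · rintro ⟨h2, h3, h4, h5⟩
    refine ⟨h2, fun i => ⟨(h3 i).1, (h3 i).2, h4 i⟩, fun f hf => ?_⟩
    have h6 := h5 f hf
    unfold fn at h6
    rw [h6]
    exact Finset.prod_congr rfl (fun i _ => (sym_leg _ _).symm)

theorem exists_conductor (hq : Odd (Fintype.card F)) {N : F[X]} (hN : N.Monic)
    {η : MulChar (AdjoinRoot N) ℂ} (hη : η ^ 2 = 1) :
    ∃ (r : ℕ) (p : Fin r → F[X]), Conductor N η p := by
  have hpm : ∀ f, IsCoprime f N → fn η f = 1 ∨ fn η f = -1 := by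
    intro f hf
    have h1 := pow_of hη f hf
    have h2 : (fn η f - 1) * (fn η f + 1) = 0 := by linear_combination h1
    rcases mul_eq_zero.1 h2 with h3 | h3
    · exact Or.inl (sub_eq_zero.1 h3)
    · exact Or.inr (eq_neg_of_add_eq_zero_left h3)
  obtain ⟨r, p, hp⟩ := exists_fam0 hq (dc_fn hN η) hpm
  exact ⟨r, p, fam_iff.2 hp⟩

omit [Fintype F] in
theorem sym_eq {P f g : F[X]} (h : sym P f = sym P g) : leg P f = leg P g := by
  rw [← sym_leg, ← sym_leg, h]

omit [Fintype F] in
theorem leg_eq {P f g : F[X]} (h : leg P f = leg P g) : sym P f = sym P g := by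
  rw [← sym_leg, ← sym_leg] at h
  exact_mod_cast h

theorem positive_of {N P : F[X]} {η : MulChar (AdjoinRoot N) ℂ}
    (h : ∀ x : ℝ, 0 < x → x < 1 →
      ∃ y : ℝ, 0 < y ∧ (Lp (N * P).natDegree (fun f => fn η f * leg P f)).eval (x : ℂ) = y) :
    Positive N η P := by
  intro s hs
  have hq1' : 1 < Fintype.card F := Fintype.one_lt_card
  have hq1 : (1 : ℝ) < (Fintype.card F : ℝ) := by exact_mod_cast hq1'
  have hq0 : (0 : ℝ) < (Fintype.card F : ℝ) := by linarith
  have hx0 : 0 < (Fintype.card F : ℝ) ^ (-s) := Real.rpow_pos_of_pos hq0 _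
  have hx1 : (Fintype.card F : ℝ) ^ (-s) < 1 := Real.rpow_lt_one_of_one_lt_of_neg hq1 (by linarith)
  obtain ⟨y, hy, hy'⟩ := h _ hx0 hx1
  refine ⟨y, hy, ?_⟩
  unfold LFun
  rw [LPoly_eq, cpow_real (by omega)]
  exact hy'

/-- **Prime twists without real zeros.** -/
theorem result (F : Type) [Field F] [Fintype F] (hq : Odd (Fintype.card F))
    (hsq : ∀ a : ℕ, a ^ 2 = Fintype.card F → a % 4 = 3) (N : F[X]) (hN : N.Monic)
    (η : MulChar (AdjoinRoot N) ℂ) (hη : η ^ 2 = 1) :
    (∃ (r : ℕ) (p : Fin r → F[X]), Conductor N η p) ∧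
      ∀ (r : ℕ) (p : Fin r → F[X]), Conductor N η p → ∀ m : ℕ, (Odd m ∨ ∃ i, Odd (p i).natDegree) →
        (∃ A : F[X], IsCoprime A N ∧ ∀ P : F[X], P.Monic → Irreducible P → ¬ P ∣ N →
          P.natDegree % 4 = m % 4 → (∀ i, sym (p i) P = sym (p i) A) → Positive N η P) ∧
        (N.natDegree < m → (Fintype.card F : ℝ) ^ m / 2 ^ r -
          (N.natDegree + 2) * √(Fintype.card F : ℝ) ^ m ≤
            m * {P : F[X] | P.Monic ∧ Irreducible P ∧ P.natDegree = m ∧ Positive N η P}.ncard) := by
  refine ⟨exists_conductor hq hN hη, ?_⟩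
  intro r p hp m hm
  have hp0 := fam_iff.1 hp
  obtain ⟨A, hA, hA'⟩ := twist_main hq hsq (dc_fn hN η) hp0 hm
  refine ⟨⟨A, hA, ?_⟩, ?_⟩
  · intro P hP hP' hPN hdeg hsym
    exact positive_of (hA' P hP hP' hPN hdeg (fun i => sym_eq (hsym i)))
  · intro hNm
    apply count_main hq hN hp0.inj hp0.prime hp0.dvd hA hNm {P | Positive N η P}
    intro P hP hP' hdeg hsym
    apply positive_of
    apply hA' P hP hP' _ (by rw [hdeg]) hsym
    intro hd
    have h1 := natDegree_le_of_dvd hd hN.ne_zero
    omega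

end Pool.Agent.Results.MP_0016c7_nt.PrimeTwists
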