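import Mathlib
import Pool.Agent.H23.ER.MulF
import Pool.Agent.H23.ER.MuE

/-!
# The order of quadratic L-functions over `F_q[T]` at the centre and the Rédei matrix, `q = 1` modulo `4`

Let `q` be congruent to `1` modulo `4` and let `χ` be a nontrivial quadratic character modulo `N ∈ F_q[T]`. Let
`P_1, ..., P_r` be the primes dividing the conductor, `R` their Rédei matrix over `F_2` (for `i ≠ j` the entry `R i j` is
`1` if `(P_i / P_j) = -1` and `0` otherwise, and the sum of each row is zero) and `D` the diagonal matrix of the degrees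
modulo `2`. Let `e` be the order of `L(s, χ)` at `s = 1/2`, that is the number of the real zeros in `(0, 1)` with
multiplicity, and `f = det (R + x D) ∈ F_2[x]`. Then `f` is divisible by

* `(x ^ 2 + x + 1) ^ e` if `q = 5` modulo `8`,
* `(x + 1) ^ e` if `q = 1` modulo `8` and `√q` is not an integer which is `1` modulo `4`,
* `x ^ e` if `√q` is an integer which is `1` modulo `4`.

Let `n` be the number of the `P_i` of odd degree. If `f` is not zero (for instance if `n = r`) then `e ≤ (n - 1) / 2` in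
the first case, and `e ≤ n - 1` in the second case. If `q = 5` modulo `8` and `n = r ≤ 4` then `e = 0`. For `q = 5` and
the five linear polynomials (`T ^ 5 - T`) one has `e = 2`.

Proof: by Weil's theorem the only possible real zero is `s = 1/2`. The alternating sum of the L-functions of all the
characters `χ_d`, `d` dividing the conductor, without the Euler factors at the other `P_i`, has coefficients divisible by
`2 ^ r`; times `1 - q u` it is a polynomial, and the value of its `2 ^ r`-th part at `1` is even when `q = 1` modulo `4`.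
Put `u = 1 / (1 + 2 x)`. It follows by induction on `r` that, for the primitive `χ`, `(1 - q u) L(u, χ) / 2 ^ r` is a
power series in `x` with integral coefficients, which modulo `2` is `f`: the determinants satisfy the same recursion in
characteristic `2`, because the rows of `R` have sum zero. Up to a power of `1 + 2 x` it is a polynomial, divisible by
`(x - τ) ^ e` where `τ = (√q - 1) / 2` is an algebraic integer; and one reduces modulo a place above `2`.
-/

set_option autoImplicit false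

namespace Pool.Agent.Results.MP_0016c7_nt.RedeiOneModFour

open Polynomial

variable {F : Type} [Field F]

open Classical in
/-- the quadratic residue symbol `(f / P)` -/
noncomputable def sym (P f : F[X]) : ℤ := if P ∣ f then 0 else if ∃ g, P ∣ g ^ 2 - f then 1 else -1

/-- the additive symbol: `1` if `(f / P) = -1`, and `0` otherwise -/
noncomputable def bit (f P : F[X]) : ZMod 2 := if sym P f = -1 then 1 else 0

/-- `P 0, ..., P (r - 1)` are distinct primes dividing `N` and the quadratic character `χ` modulo `N` is induced by the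
product of their quadratic residue symbols; that is, they are the primes dividing the conductor of `χ` -/
def Conductor (N : F[X]) (χ : MulChar (AdjoinRoot N) ℂ) {r : ℕ} (P : Fin r → F[X]) : Prop :=
  1 ≤ r ∧ Function.Injective P ∧ (∀ i, (P i).Monic ∧ Irreducible (P i) ∧ P i ∣ N) ∧
    ∀ f : F[X], IsCoprime f N → χ (AdjoinRoot.mk N f) = ∏ i, (sym (P i) f : ℂ)

/-- the Rédei matrix over `F_2`: the entry `(P i / P j)`, written additively, off the diagonal; the rows have sum zero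
(`bit (P i) (P i) = 0`) -/
noncomputable def redeiMatrix {r : ℕ} (P : Fin r → F[X]) : Matrix (Fin r) (Fin r) (ZMod 2) := fun i j =>
  if i = j then ∑ l, bit (P i) (P l) else bit (P i) (P j)

/-- the diagonal matrix of the degrees modulo `2` -/
noncomputable def degMatrix {r : ℕ} (P : Fin r → F[X]) : Matrix (Fin r) (Fin r) (ZMod 2) :=
  Matrix.diagonal (fun i => ((P i).natDegree : ZMod 2))

/-- the polynomial `det (R + x D)` over `F_2` -/
noncomputable def redeiPoly {r : ℕ} (P : Fin r → F[X]) : (ZMod 2)[X] :=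
  ((redeiMatrix P).map C + (X : (ZMod 2)[X]) • (degMatrix P).map C).det

/-- the factor of `f = det (R + x D)`, for the order `e` and the field with `q` elements -/
def Divides (q e : ℕ) (f : (ZMod 2)[X]) : Prop :=
  (q % 8 = 5 → (X ^ 2 + X + 1 : (ZMod 2)[X]) ^ e ∣ f) ∧
  (q % 8 = 1 → (∀ a : ℕ, a ^ 2 = q → a % 4 = 3) → (X + 1 : (ZMod 2)[X]) ^ e ∣ f) ∧
  ((∃ a : ℕ, a ^ 2 = q ∧ a % 4 = 1) → (X : (ZMod 2)[X]) ^ e ∣ f)

variable [Fintype F]

/-- the L-function `∑ χ(f) u ^ deg f` (sum over the monic `f`) of the character `χ` modulo `N`, as a polynomial in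
`u`; the terms with `deg f ≥ deg N` cancel if `χ` is not principal (`LPoly_coeff`) -/
noncomputable def LPoly (N : F[X]) (χ : MulChar (AdjoinRoot N) ℂ) : ℂ[X] :=
  ∑ k ∈ Finset.range N.natDegree,
    C (∑ᶠ f ∈ {f : F[X] | f.Monic ∧ f.natDegree = k}, χ (AdjoinRoot.mk N f)) * X ^ k

/-- the L-function as a function of `s`, `u = q ^ (-s)` -/
noncomputable def LFun (N : F[X]) (χ : MulChar (AdjoinRoot N) ℂ) (s : ℂ) : ℂ :=
  (LPoly N χ).eval ((Fintype.card F : ℂ) ^ (-s))

/-- the order of `L(s, χ)` at `s = 1/2`: the multiplicity of the zero `u = q ^ (-1/2)` -/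
noncomputable def order (N : F[X]) (χ : MulChar (AdjoinRoot N) ℂ) : ℕ :=
  (LPoly N χ).rootMultiplicity ((Fintype.card F : ℂ) ^ (-(1 / 2 : ℂ)))

open Pool.Agent.H23.FF Pool.Agent.H23.PC Pool.Agent.H23.EL Pool.Agent.H23.ER
open Pool.Agent.H341R2.Sharp (Mon mem_Mon)

theorem set_Mon (k : ℕ) : {R : F[X] | R.Monic ∧ R.natDegree = k} = (Mon F k : Set F[X]) := by
  ext R
  rw [Set.mem_ofPred_eq, Finset.mem_coe, mem_Mon]

theorem LPoly_eq (N : F[X]) (χ : MulChar (AdjoinRoot N) ℂ) : LPoly N χ = Lp N.natDegree (fn χ) := by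
  unfold LPoly Lp cf
  apply Finset.sum_congr rfl
  intro k _
  rw [set_Mon, finsum_mem_coe_finset]
  rfl

/-- the coefficients of the L-function -/
theorem LPoly_coeff {N : F[X]} (hN : N.Monic) {χ : MulChar (AdjoinRoot N) ℂ} (hχ : χ ≠ 1) (k : ℕ) :
    (LPoly N χ).coeff k = ∑ᶠ f ∈ {f : F[X] | f.Monic ∧ f.natDegree = k}, χ (AdjoinRoot.mk N f) := by
  obtain ⟨D, hD⟩ := exists_cond hN rfl
  rw [LPoly_eq, Lp_coeff (dc_fn hN χ) rfl (hD χ hχ).1, set_Mon, finsum_mem_coe_finset]
  rfl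

omit [Fintype F] in
theorem pow_of {P : F[X]} {ψ : MulChar (AdjoinRoot P) ℂ} {n : ℕ} (hn : ψ ^ n = 1) (f : F[X])
    (hf : IsCoprime f P) : fn ψ f ^ n = 1 := by
  have h1 : (ψ ^ n) (AdjoinRoot.mk P f) = 1 := by
    rw [hn, ← un_coe hf, MulChar.one_apply_coe]
  rw [← un_coe hf, MulChar.pow_apply_coe] at h1
  unfold fn
  rw [← un_coe hf]
  exact h1

omit [Fintype F] in
theorem sym_leg (P f : F[X]) : (sym P f : ℂ) = leg P f := by
  unfold sym leg
  split_ifs <;> simp

omit [Fintype F] in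
theorem sym_iff (P f : F[X]) : sym P f = -1 ↔ leg P f = -1 := by
  rw [← sym_leg]
  constructor
  · intro h
    rw [h]
    norm_num
  · intro h
    exact_mod_cast h

omit [Fintype F] in
theorem fam_iff {N : F[X]} {χ : MulChar (AdjoinRoot N) ℂ} {r : ℕ} {P : Fin r → F[X]} :
    Conductor N χ P ↔ Fam N (fn χ) P := by
  constructor
  · rintro ⟨h1, h2, h3, h4⟩
    refine ⟨h1, h2, fun i => ⟨(h3 i).1, (h3 i).2.1⟩, fun i => (h3 i).2.2, fun f hf => ?_⟩
    unfold fn
    rw [h4 f hf]
    exact Finset.prod_congr rfl (fun i _ => sym_leg _ _)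
  · rintro ⟨h1, h2, h3, h4, h5⟩
    refine ⟨h1, h2, fun i => ⟨(h3 i).1, (h3 i).2, h4 i⟩, fun f hf => ?_⟩
    have h6 := h5 f hf
    unfold fn at h6
    rw [h6]
    exact Finset.prod_congr rfl (fun i _ => (sym_leg _ _).symm)

theorem exists_conductor (hq : Odd (Fintype.card F)) {N : F[X]} (hN : N.Monic)
    {χ : MulChar (AdjoinRoot N) ℂ} (hχ : χ ≠ 1) (hχ2 : χ ^ 2 = 1) :
    ∃ (r : ℕ) (P : Fin r → F[X]), Conductor N χ P := by
  have hnt : NT N (fn χ) := by
    obtain ⟨D, hD⟩ := exists_cond hN rfl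
    exact (hD χ hχ).1
  have hpm : ∀ f, IsCoprime f N → fn χ f = 1 ∨ fn χ f = -1 := by
    intro f hf
    have h1 := pow_of hχ2 f hf
    have h2 : (fn χ f - 1) * (fn χ f + 1) = 0 := by linear_combination h1
    rcases mul_eq_zero.1 h2 with h3 | h3
    · exact Or.inl (sub_eq_zero.1 h3)
    · exact Or.inr (eq_neg_of_add_eq_zero_left h3)
  obtain ⟨r, P, hP⟩ := exists_fam hq (dc_fn hN χ) hpm hnt
  exact ⟨r, P, fam_iff.2 hP⟩

theorem u0_spec : ((√(Fintype.card F : ℝ) : ℝ) : ℂ) * (Fintype.card F : ℂ) ^ (-(1 / 2 : ℂ)) = 1 := by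
  have hq0 : (Fintype.card F : ℂ) ≠ 0 := by
    have h := (Fintype.card_pos (α := F)).ne'
    exact_mod_cast h
  have h1 : ((√(Fintype.card F : ℝ) : ℝ) : ℂ) = (Fintype.card F : ℂ) ^ (1 / 2 : ℂ) := by
    rw [Real.sqrt_eq_rpow, Complex.ofReal_cpow (by positivity)]
    push_cast
    rfl
  rw [h1, ← Complex.cpow_add _ _ hq0]
  norm_num

theorem LFun_ne {N : F[X]} (hN : N.Monic) {χ : MulChar (AdjoinRoot N) ℂ} (hχ : χ ≠ 1) {s : ℝ} (hs : 0 < s)
    (hs2 : s ≠ 1 / 2) : LFun N χ (s : ℂ) ≠ 0 := by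
  have hq1' : 1 < Fintype.card F := Fintype.one_lt_card
  have hq1 : (1 : ℝ) < (Fintype.card F : ℝ) := by exact_mod_cast hq1'
  have hq0 : (0 : ℝ) < (Fintype.card F : ℝ) := by linarith
  obtain ⟨D, hD⟩ := exists_cond hN rfl
  intro h0
  unfold LFun at h0
  rw [LPoly_eq, cpow_real (by omega)] at h0
  have hne := Lp_ne (dc_fn hN χ) rfl (hD χ hχ).1
  have hx0 : 0 < (Fintype.card F : ℝ) ^ (-s) := Real.rpow_pos_of_pos hq0 _
  have hx1 : (Fintype.card F : ℝ) ^ (-s) < 1 := Real.rpow_lt_one_of_one_lt_of_neg hq1 (by linarith)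
  have h1 := (hD χ hχ).2.2.1 _ ((mem_roots hne).2 h0)
  rw [Complex.norm_real, Real.norm_of_nonneg hx0.le] at h1
  rcases h1 with h1 | h1
  · apply hs2
    have h2 : (Fintype.card F : ℝ) ^ (1 / 2 - s) = 1 := by
      rw [sub_eq_add_neg, Real.rpow_add hq0, ← Real.sqrt_eq_rpow]
      exact h1
    have h3 := congrArg Real.log h2
    rw [Real.log_rpow hq0, Real.log_one] at h3
    rcases mul_eq_zero.1 h3 with h4 | h4
    · linarith
    · exact absurd h4 (Real.log_pos hq1).ne'
  · exact absurd h1 hx1.ne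

theorem positive {N : F[X]} (hN : N.Monic) {χ : MulChar (AdjoinRoot N) ℂ} (hχ : χ ≠ 1) (hχ2 : χ ^ 2 = 1)
    (h0 : order N χ = 0) {s : ℝ} (hs : 0 < s) : ∃ x : ℝ, 0 < x ∧ LFun N χ (s : ℂ) = (x : ℂ) := by
  have hq1' : 1 < Fintype.card F := Fintype.one_lt_card
  have hq1 : (1 : ℝ) < (Fintype.card F : ℝ) := by exact_mod_cast hq1'
  have hq0 : (0 : ℝ) < (Fintype.card F : ℝ) := by linarith
  have hx0 : 0 < (Fintype.card F : ℝ) ^ (-s) := Real.rpow_pos_of_pos hq0 _
  have hx1 : (Fintype.card F : ℝ) ^ (-s) < 1 := Real.rpow_lt_one_of_one_lt_of_neg hq1 (by linarith)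
  have hnt : NT N (fn χ) := by
    obtain ⟨D, hD⟩ := exists_cond hN rfl
    exact (hD χ hχ).1
  have hpm : ∀ f, IsCoprime f N → fn χ f = 1 ∨ fn χ f = -1 := by
    intro f hf
    have h1 := pow_of hχ2 f hf
    have h2 : (fn χ f - 1) * (fn χ f + 1) = 0 := by linear_combination h1
    rcases mul_eq_zero.1 h2 with h3 | h3
    · exact Or.inl (sub_eq_zero.1 h3)
    · exact Or.inr (eq_neg_of_add_eq_zero_left h3)
  have hc : ∀ u : ℂ, ((√(Fintype.card F : ℝ) : ℝ) : ℂ) * u = 1 → (Lp N.natDegree (fn χ)).eval u ≠ 0 := by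
    intro u hu h1
    have hs0 : ((√(Fintype.card F : ℝ) : ℝ) : ℂ) ≠ 0 := by
      intro h2
      rw [h2, zero_mul] at hu
      exact zero_ne_one hu
    have h2 : u = (Fintype.card F : ℂ) ^ (-(1 / 2 : ℂ)) :=
      mul_left_cancel₀ hs0 (hu.trans u0_spec.symm)
    have hne := Lp_ne (dc_fn hN χ) rfl hnt
    have h3 : 0 < (Lp N.natDegree (fn χ)).rootMultiplicity u := (rootMultiplicity_pos hne).2 h1
    unfold order at h0
    rw [LPoly_eq, ← h2] at h0
    omega
  obtain ⟨y, hy, hy'⟩ := pos_of_central (dc_fn hN χ) hpm hnt hc hx0 hx1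
  refine ⟨y, hy, ?_⟩
  unfold LFun
  rw [LPoly_eq, cpow_real (by omega)]
  exact hy'

omit [Fintype F] in
theorem redei_eq {r : ℕ} (P : Fin r → F[X]) : redeiMatrix P = redei P := by
  ext i j
  unfold redeiMatrix redei bit
  simp only [sym_iff]

open Classical in
/-- **The number of real zeros and the Rédei matrix.** -/
theorem result (F : Type) [Field F] [Fintype F] (hq : Fintype.card F % 4 = 1) (N : F[X]) (hN : N.Monic)
    (χ : MulChar (AdjoinRoot N) ℂ) (hχ : χ ≠ 1) (hχ2 : χ ^ 2 = 1) :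
    (∀ s : ℝ, 0 < s → s ≠ 1 / 2 → LFun N χ (s : ℂ) ≠ 0) ∧
    (order N χ = 0 → ∀ s : ℝ, 0 < s → ∃ x : ℝ, 0 < x ∧ LFun N χ (s : ℂ) = (x : ℂ)) ∧
    (∃ (r : ℕ) (P : Fin r → F[X]), Conductor N χ P) ∧
    ∀ (r : ℕ) (P : Fin r → F[X]), Conductor N χ P →
      Divides (Fintype.card F) (order N χ) (redeiPoly P) ∧
      (redeiPoly P ≠ 0 →
        (Fintype.card F % 8 = 5 →
          2 * order N χ + 1 ≤ (Finset.univ.filter (fun i => Odd (P i).natDegree)).card) ∧
        (Fintype.card F % 8 = 1 → (∀ a : ℕ, a ^ 2 = Fintype.card F → a % 4 = 3) →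
          order N χ + 1 ≤ (Finset.univ.filter (fun i => Odd (P i).natDegree)).card)) ∧
      ((∀ i, Odd (P i).natDegree) →
        redeiPoly P ≠ 0 ∧ (Fintype.card F % 8 = 5 → r ≤ 4 → order N χ = 0)) := by
  have hodd : Odd (Fintype.card F) := by
    rw [Nat.odd_iff]
    omega
  refine ⟨fun s hs hs2 => LFun_ne hN hχ hs hs2, fun h0 s hs => positive hN hχ hχ2 h0 hs,
    exists_conductor hodd hN hχ hχ2, ?_⟩
  intro r P hP
  have hr : NeZero r := ⟨by have := hP.1; omega⟩
  have hu := u0_spec (F := F)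
  have he : (X - C ((Fintype.card F : ℂ) ^ (-(1 / 2 : ℂ)))) ^ (order N χ) ∣ Lp N.natDegree (fn χ) := by
    rw [← LPoly_eq]
    exact pow_rootMultiplicity_dvd _ _
  have h1 := (fam_iff.1 hP).order (dc_fn hN χ) hq hu he
  have h2 : redeiPoly P = rpol P := by
    unfold redeiPoly rpol
    rw [redei_eq]
    rfl
  rw [h2]
  refine ⟨h1.1, fun h0 => order1_le h1.1 h0, ?_⟩
  intro ho
  refine ⟨rpol_odd_ne ho, fun h8 h4 => ?_⟩
  have hprime : ∀ i, (P i).Monic ∧ Irreducible (P i) := fun i => ⟨(hP.2.2.1 i).1, (hP.2.2.1 i).2.1⟩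
  have hc : Cond P := Or.inl ⟨h8, Or.inl ⟨ho, small_redei hq h4 hprime hP.2.1⟩⟩
  have hq1' : 1 < Fintype.card F := Fintype.one_lt_card
  have hq1 : (1 : ℝ) < (Fintype.card F : ℝ) := by exact_mod_cast hq1'
  have hq0 : (0 : ℝ) < (Fintype.card F : ℝ) := by linarith
  obtain ⟨y, hy, hy'⟩ := (fam_iff.1 hP).pos_unit hodd (dc_fn hN χ) hc
    (Real.rpow_pos_of_pos hq0 (-(1 / 2 : ℝ))) (Real.rpow_lt_one_of_one_lt_of_neg hq1 (by norm_num))
  unfold order
  rw [LPoly_eq]
  apply rootMultiplicity_eq_zero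
  intro h3
  have h5 : (Fintype.card F : ℂ) ^ (-(1 / 2 : ℂ)) = (((Fintype.card F : ℝ) ^ (-(1 / 2 : ℝ)) : ℝ) : ℂ) := by
    rw [← cpow_real (by omega)]
    push_cast
    rfl
  rw [h5, IsRoot.def, hy'] at h3
  have h6 : y = 0 := by exact_mod_cast h3
  exact hy.ne' h6

end Pool.Agent.Results.MP_0016c7_nt.RedeiOneModFour
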