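import Mathlib
import Pool.Agent.H23.ER.MuD

/-!
# The order of quadratic L-functions over `F_q[T]` at the centre, `q = 3` modulo `4`

Let `q` be congruent to `3` modulo `4` and let `χ` be a nontrivial quadratic character modulo `N ∈ F_q[T]`. Let
`P_1, ..., P_r` be the primes dividing the conductor, and let `mat P` be the following matrix over `F_2[x]`, which
resembles the Rédei matrix: the row of a prime of odd degree is `x` times the unit vector; the row of a prime `P_i` of
even degree has the entry `(P_i / P_j)` (written additively) at `j ≠ i`, and the sum of these entries plus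
`(deg P_i / 2) x ^ 2` at `i`. Let `e` be the order of `L(s, χ)` at `s = 1/2`, that is the number of the real zeros in
`(0, 1)` with multiplicity. Then `(x + 1) ^ e` divides `det (mat P)`; and if the determinant is not zero then `e` is at
most twice the number of the `P_i` with `deg P_i = 2` modulo `4`. For instance, there are no real zeros if all prime
factors of the conductor (or of `N`) have odd degree.

Proof: by Weil's theorem the only possible real zero is `s = 1/2`. Let `D` be the conductor. The alternating sum of the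
L-functions of all the characters `χ_d`, `d ∣ D`, without the Euler factors at `D/d`, has coefficients divisible by
`2 ^ r`. Fix a place above `2` and put `t = √q - 1`; `t² / 2` is a unit. Let `w` be the number of the `P_i` of odd degree
plus twice the number of the others, and put `u = 1 / (1 + t x)`. By induction on `r` the coefficients of the power
series `(1 - q u) L(u, χ_D) / t ^ w` in `x` are integral at the place, and its reduction is the determinant of `mat P`,
because the determinants satisfy the same recursion in characteristic `2`. Up to a power of `1 + t x` it is a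
polynomial in `x`, divisible by `(x - 1) ^ e`.
-/

set_option autoImplicit false

namespace Pool.Agent.Results.MP_0016c7_nt.RedeiThreeModFour

open Polynomial

variable {F : Type} [Field F]

open Classical in
/-- the quadratic residue symbol `(f / P)` -/
noncomputable def sym (P f : F[X]) : ℤ := if P ∣ f then 0 else if ∃ g, P ∣ g ^ 2 - f then 1 else -1

/-- the additive symbol: `1` if `(f / P) = -1`, and `0` otherwise -/
noncomputable def bit (f P : F[X]) : ZMod 2 := if sym P f = -1 then 1 else 0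

/-- `P 0, ..., P (r - 1)` are distinct primes dividing `N` and the quadratic character `χ` modulo `N` is induced by the
product of their quadratic residue symbols; that is, they are the primes dividing the conductor of `χ` -/
def Conductor (N : F[X]) (χ : MulChar (AdjoinRoot N) ℂ) {r : ℕ} (P : Fin r → F[X]) : Prop :=
  1 ≤ r ∧ Function.Injective P ∧ (∀ i, (P i).Monic ∧ Irreducible (P i) ∧ P i ∣ N) ∧
    ∀ f : F[X], IsCoprime f N → χ (AdjoinRoot.mk N f) = ∏ i, (sym (P i) f : ℂ)

/-- the matrix over `F_2[x]` attached to the primes: the row of a prime of odd degree is `x` times the unit vector; the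
row of a prime `P i` of even degree has the entry `(P i / P j)` (written additively) at `j ≠ i`, and at `i` the sum of
these entries plus `(deg (P i) / 2) x ^ 2` -/
noncomputable def mat {r : ℕ} (P : Fin r → F[X]) : Matrix (Fin r) (Fin r) (ZMod 2)[X] := fun i j =>
  if Odd (P i).natDegree then (if i = j then X else 0)
  else if i = j then C (∑ l, bit (P i) (P l)) + C (((P i).natDegree / 2 : ℕ) : ZMod 2) * X ^ 2
  else C (bit (P i) (P j))

variable [Fintype F]

/-- the L-function `∑ χ(f) u ^ deg f` (sum over the monic `f`) of the character `χ` modulo `N`, as a polynomial in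
`u`; the terms with `deg f ≥ deg N` cancel if `χ` is not principal (`LPoly_coeff`) -/
noncomputable def LPoly (N : F[X]) (χ : MulChar (AdjoinRoot N) ℂ) : ℂ[X] :=
  ∑ k ∈ Finset.range N.natDegree,
    C (∑ᶠ f ∈ {f : F[X] | f.Monic ∧ f.natDegree = k}, χ (AdjoinRoot.mk N f)) * X ^ k

/-- the L-function as a function of `s`, `u = q ^ (-s)` -/
noncomputable def LFun (N : F[X]) (χ : MulChar (AdjoinRoot N) ℂ) (s : ℂ) : ℂ :=
  (LPoly N χ).eval ((Fintype.card F : ℂ) ^ (-s))

/-- the order of `L(s, χ)` at `s = 1/2`: the multiplicity of the zero `u = q ^ (-1/2)` -/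
noncomputable def order (N : F[X]) (χ : MulChar (AdjoinRoot N) ℂ) : ℕ :=
  (LPoly N χ).rootMultiplicity ((Fintype.card F : ℂ) ^ (-(1 / 2 : ℂ)))

open Pool.Agent.H23.FF Pool.Agent.H23.PC Pool.Agent.H23.EL Pool.Agent.H23.ER
open Pool.Agent.H341R2.Sharp (Mon mem_Mon)

theorem set_Mon (k : ℕ) : {R : F[X] | R.Monic ∧ R.natDegree = k} = (Mon F k : Set F[X]) := by
  ext R
  rw [Set.mem_ofPred_eq, Finset.mem_coe, mem_Mon]

theorem LPoly_eq (N : F[X]) (χ : MulChar (AdjoinRoot N) ℂ) : LPoly N χ = Lp N.natDegree (fn χ) := by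
  unfold LPoly Lp cf
  apply Finset.sum_congr rfl
  intro k _
  rw [set_Mon, finsum_mem_coe_finset]
  rfl

/-- the coefficients of the L-function -/
theorem LPoly_coeff {N : F[X]} (hN : N.Monic) {χ : MulChar (AdjoinRoot N) ℂ} (hχ : χ ≠ 1) (k : ℕ) :
    (LPoly N χ).coeff k = ∑ᶠ f ∈ {f : F[X] | f.Monic ∧ f.natDegree = k}, χ (AdjoinRoot.mk N f) := by
  obtain ⟨D, hD⟩ := exists_cond hN rfl
  rw [LPoly_eq, Lp_coeff (dc_fn hN χ) rfl (hD χ hχ).1, set_Mon, finsum_mem_coe_finset]
  rfl

omit [Fintype F] in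
theorem pow_of {P : F[X]} {ψ : MulChar (AdjoinRoot P) ℂ} {n : ℕ} (hn : ψ ^ n = 1) (f : F[X])
    (hf : IsCoprime f P) : fn ψ f ^ n = 1 := by
  have h1 : (ψ ^ n) (AdjoinRoot.mk P f) = 1 := by
    rw [hn, ← un_coe hf, MulChar.one_apply_coe]
  rw [← un_coe hf, MulChar.pow_apply_coe] at h1
  unfold fn
  rw [← un_coe hf]
  exact h1

omit [Fintype F] in
theorem sym_leg (P f : F[X]) : (sym P f : ℂ) = leg P f := by
  unfold sym leg
  split_ifs <;> simp

omit [Fintype F] in
theorem sym_iff (P f : F[X]) : sym P f = -1 ↔ leg P f = -1 := by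
  rw [← sym_leg]
  constructor
  · intro h
    rw [h]
    norm_num
  · intro h
    exact_mod_cast h

omit [Fintype F] in
theorem fam_iff {N : F[X]} {χ : MulChar (AdjoinRoot N) ℂ} {r : ℕ} {P : Fin r → F[X]} :
    Conductor N χ P ↔ Fam N (fn χ) P := by
  constructor
  · rintro ⟨h1, h2, h3, h4⟩
    refine ⟨h1, h2, fun i => ⟨(h3 i).1, (h3 i).2.1⟩, fun i => (h3 i).2.2, fun f hf => ?_⟩
    unfold fn
    rw [h4 f hf]
    exact Finset.prod_congr rfl (fun i _ => sym_leg _ _)
  · rintro ⟨h1, h2, h3, h4, h5⟩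
    refine ⟨h1, h2, fun i => ⟨(h3 i).1, (h3 i).2, h4 i⟩, fun f hf => ?_⟩
    have h6 := h5 f hf
    unfold fn at h6
    rw [h6]
    exact Finset.prod_congr rfl (fun i _ => (sym_leg _ _).symm)

theorem exists_conductor (hq : Odd (Fintype.card F)) {N : F[X]} (hN : N.Monic)
    {χ : MulChar (AdjoinRoot N) ℂ} (hχ : χ ≠ 1) (hχ2 : χ ^ 2 = 1) :
    ∃ (r : ℕ) (P : Fin r → F[X]), Conductor N χ P := by
  have hnt : NT N (fn χ) := by
    obtain ⟨D, hD⟩ := exists_cond hN rfl
    exact (hD χ hχ).1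
  have hpm : ∀ f, IsCoprime f N → fn χ f = 1 ∨ fn χ f = -1 := by
    intro f hf
    have h1 := pow_of hχ2 f hf
    have h2 : (fn χ f - 1) * (fn χ f + 1) = 0 := by linear_combination h1
    rcases mul_eq_zero.1 h2 with h3 | h3
    · exact Or.inl (sub_eq_zero.1 h3)
    · exact Or.inr (eq_neg_of_add_eq_zero_left h3)
  obtain ⟨r, P, hP⟩ := exists_fam hq (dc_fn hN χ) hpm hnt
  exact ⟨r, P, fam_iff.2 hP⟩

theorem u0_spec : ((√(Fintype.card F : ℝ) : ℝ) : ℂ) * (Fintype.card F : ℂ) ^ (-(1 / 2 : ℂ)) = 1 := by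
  have hq0 : (Fintype.card F : ℂ) ≠ 0 := by
    have h := (Fintype.card_pos (α := F)).ne'
    exact_mod_cast h
  have h1 : ((√(Fintype.card F : ℝ) : ℝ) : ℂ) = (Fintype.card F : ℂ) ^ (1 / 2 : ℂ) := by
    rw [Real.sqrt_eq_rpow, Complex.ofReal_cpow (by positivity)]
    push_cast
    rfl
  rw [h1, ← Complex.cpow_add _ _ hq0]
  norm_num

theorem LFun_ne {N : F[X]} (hN : N.Monic) {χ : MulChar (AdjoinRoot N) ℂ} (hχ : χ ≠ 1) {s : ℝ} (hs : 0 < s)
    (hs2 : s ≠ 1 / 2) : LFun N χ (s : ℂ) ≠ 0 := by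
  have hq1' : 1 < Fintype.card F := Fintype.one_lt_card
  have hq1 : (1 : ℝ) < (Fintype.card F : ℝ) := by exact_mod_cast hq1'
  have hq0 : (0 : ℝ) < (Fintype.card F : ℝ) := by linarith
  obtain ⟨D, hD⟩ := exists_cond hN rfl
  intro h0
  unfold LFun at h0
  rw [LPoly_eq, cpow_real (by omega)] at h0
  have hne := Lp_ne (dc_fn hN χ) rfl (hD χ hχ).1
  have hx0 : 0 < (Fintype.card F : ℝ) ^ (-s) := Real.rpow_pos_of_pos hq0 _
  have hx1 : (Fintype.card F : ℝ) ^ (-s) < 1 := Real.rpow_lt_one_of_one_lt_of_neg hq1 (by linarith)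
  have h1 := (hD χ hχ).2.2.1 _ ((mem_roots hne).2 h0)
  rw [Complex.norm_real, Real.norm_of_nonneg hx0.le] at h1
  rcases h1 with h1 | h1
  · apply hs2
    have h2 : (Fintype.card F : ℝ) ^ (1 / 2 - s) = 1 := by
      rw [sub_eq_add_neg, Real.rpow_add hq0, ← Real.sqrt_eq_rpow]
      exact h1
    have h3 := congrArg Real.log h2
    rw [Real.log_rpow hq0, Real.log_one] at h3
    rcases mul_eq_zero.1 h3 with h4 | h4
    · linarith
    · exact absurd h4 (Real.log_pos hq1).ne'
  · exact absurd h1 hx1.ne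

theorem positive {N : F[X]} (hN : N.Monic) {χ : MulChar (AdjoinRoot N) ℂ} (hχ : χ ≠ 1) (hχ2 : χ ^ 2 = 1)
    (h0 : order N χ = 0) {s : ℝ} (hs : 0 < s) : ∃ x : ℝ, 0 < x ∧ LFun N χ (s : ℂ) = (x : ℂ) := by
  have hq1' : 1 < Fintype.card F := Fintype.one_lt_card
  have hq1 : (1 : ℝ) < (Fintype.card F : ℝ) := by exact_mod_cast hq1'
  have hq0 : (0 : ℝ) < (Fintype.card F : ℝ) := by linarith
  have hx0 : 0 < (Fintype.card F : ℝ) ^ (-s) := Real.rpow_pos_of_pos hq0 _
  have hx1 : (Fintype.card F : ℝ) ^ (-s) < 1 := Real.rpow_lt_one_of_one_lt_of_neg hq1 (by linarith)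
  have hnt : NT N (fn χ) := by
    obtain ⟨D, hD⟩ := exists_cond hN rfl
    exact (hD χ hχ).1
  have hpm : ∀ f, IsCoprime f N → fn χ f = 1 ∨ fn χ f = -1 := by
    intro f hf
    have h1 := pow_of hχ2 f hf
    have h2 : (fn χ f - 1) * (fn χ f + 1) = 0 := by linear_combination h1
    rcases mul_eq_zero.1 h2 with h3 | h3
    · exact Or.inl (sub_eq_zero.1 h3)
    · exact Or.inr (eq_neg_of_add_eq_zero_left h3)
  have hc : ∀ u : ℂ, ((√(Fintype.card F : ℝ) : ℝ) : ℂ) * u = 1 → (Lp N.natDegree (fn χ)).eval u ≠ 0 := by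
    intro u hu h1
    have hs0 : ((√(Fintype.card F : ℝ) : ℝ) : ℂ) ≠ 0 := by
      intro h2
      rw [h2, zero_mul] at hu
      exact zero_ne_one hu
    have h2 : u = (Fintype.card F : ℂ) ^ (-(1 / 2 : ℂ)) :=
      mul_left_cancel₀ hs0 (hu.trans u0_spec.symm)
    have hne := Lp_ne (dc_fn hN χ) rfl hnt
    have h3 : 0 < (Lp N.natDegree (fn χ)).rootMultiplicity u := (rootMultiplicity_pos hne).2 h1
    unfold order at h0
    rw [LPoly_eq, ← h2] at h0
    omega
  obtain ⟨y, hy, hy'⟩ := pos_of_central (dc_fn hN χ) hpm hnt hc hx0 hx1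
  refine ⟨y, hy, ?_⟩
  unfold LFun
  rw [LPoly_eq, cpow_real (by omega)]
  exact hy'

omit [Fintype F] in
theorem mat_eq {r : ℕ} (P : Fin r → F[X]) : mat P = mat3 P := by
  ext1 i j
  unfold mat mat3 redei bit
  simp only [sym_iff]
  by_cases ho : Odd (P i).natDegree
  · rw [if_pos ho, if_pos ho]
  · rw [if_neg ho, if_neg ho]
    by_cases hij : i = j
    · rw [if_pos hij, if_pos hij, if_pos hij]
    · rw [if_neg hij, if_neg hij, if_neg hij, add_zero]

open Classical in
/-- **The number of real zeros.** -/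
theorem result (F : Type) [Field F] [Fintype F] (hq : Fintype.card F % 4 = 3) (N : F[X]) (hN : N.Monic)
    (χ : MulChar (AdjoinRoot N) ℂ) (hχ : χ ≠ 1) (hχ2 : χ ^ 2 = 1) :
    (∀ s : ℝ, 0 < s → s ≠ 1 / 2 → LFun N χ (s : ℂ) ≠ 0) ∧
    (order N χ = 0 → ∀ s : ℝ, 0 < s → ∃ x : ℝ, 0 < x ∧ LFun N χ (s : ℂ) = (x : ℂ)) ∧
    (∃ (r : ℕ) (P : Fin r → F[X]), Conductor N χ P) ∧
    ∀ (r : ℕ) (P : Fin r → F[X]), Conductor N χ P →
      (X + 1 : (ZMod 2)[X]) ^ order N χ ∣ (mat P).det ∧
      ((mat P).det ≠ 0 → order N χ ≤ 2 * (Finset.univ.filter (fun i => (P i).natDegree % 4 = 2)).card) ∧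
      ((∀ i, Odd (P i).natDegree) → order N χ = 0) := by
  have hodd : Odd (Fintype.card F) := by
    rw [Nat.odd_iff]
    omega
  refine ⟨fun s hs hs2 => LFun_ne hN hχ hs hs2, fun h0 s hs => positive hN hχ hχ2 h0 hs,
    exists_conductor hodd hN hχ hχ2, ?_⟩
  intro r P hP
  have he : (X - C ((Fintype.card F : ℂ) ^ (-(1 / 2 : ℂ)))) ^ (order N χ) ∣ Lp N.natDegree (fn χ) := by
    rw [← LPoly_eq]
    exact pow_rootMultiplicity_dvd _ _
  have h1 := (fam_iff.1 hP).order3 (dc_fn hN χ) hq (u0_spec (F := F)) he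
  rw [mat_eq]
  refine ⟨h1, fun h0 => order3_le h1 h0, ?_⟩
  intro ho
  have h2 : (mat3 P).det ≠ 0 := by
    have h3 : mat3 P = Matrix.diagonal (fun _ => (X : (ZMod 2)[X])) := by
      ext1 i j
      unfold mat3
      rw [if_pos (ho i), Matrix.diagonal_apply]
    rw [h3, Matrix.det_diagonal]
    exact Finset.prod_ne_zero_iff.2 (fun _ _ => X_ne_zero)
  have h3 := order3_le h1 h2
  have h4 : Finset.univ.filter (fun i => (P i).natDegree % 4 = 2) = ∅ := by
    rw [Finset.filter_eq_empty_iff]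
    intro i _ h5
    have h6 := ho i
    rw [Nat.odd_iff] at h6
    omega
  rw [h4, Finset.card_empty] at h3
  omega

end Pool.Agent.Results.MP_0016c7_nt.RedeiThreeModFour
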